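import Mathlib
import Pool.Agent.H53.Gal.Main

set_option autoImplicit false

/-!
# A `κ`-complete ultrafilter with `¬ Gal(U, κ, κ⁺)` and `Gal(U, κ, 2 ^ κ)`

Relative to a supercompact cardinal it is consistent that there is a `κ`-complete non-principal
ultrafilter `U` on `κ` such that `Gal(U, κ, κ⁺)` fails and `Gal(U, κ, 2 ^ κ)` holds.

Idea of the proof. Force with an iteration `R` of length `κ` (a preparation in the style of Laver)
followed by the forcing adding `(2 ^ κ)⁺` Cohen subsets of `κ`, arranged in `κ⁺` levels, with two
special rows `a_η`, `b_η` on every level `η < κ⁺`. A master condition argument gives a normal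
measure `W` of the extension which contains all `a_η` and no `b_η`. For a set `x ⊆ κ⁺` of the
ground model of size less than `κ` exchanging `a_η` and `b_η` for `η ∈ x` moves `W` to a normal
measure `W_x`, and `b_η ∈ W_x` iff `η ∈ x`. By the chain condition, for every `A ⊆ κ` there is
`σ < κ⁺` such that `A ∈ W_x` only depends on `x ∩ σ`. Let `π_σ` enumerate `σ` in type `κ`, and let
`A ∈ U` iff the set of all `ν < κ` with `A ∈ W_{π_σ '' ν}` belongs to `W`, for all large `σ`. The
sets `b_η` show that `Gal(U, κ, κ⁺)` fails; given `κ⁺⁺` members of `U`, `κ⁺` many of them have the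
same `σ`, and a pigeonhole argument as in Galvin's theorem applies to these.
-/

namespace Pool.Agent.Results.MP_c88476_lc.GalvinSeparation

open Cardinal Pool.Agent.Helper669.Forcing Pool.Agent.Helper669.K Pool.Agent.W873.Tp
open Pool.Agent.Helper403.SZ Pool.Agent.H53.Gal

/-- If `κ` is supercompact, then there is a forcing notion `P` such that every condition forces:
`κ` is regular, all cardinals from `κ` on are preserved, `2 ^ κ` is the ground model cardinal
`(2 ^ κ)⁺` (in particular `κ⁺ < 2 ^ κ`), and there is a `κ`-complete non-principal ultrafilter `U`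
on `κ` such that `Gal(U, κ, κ⁺)` fails and `Gal(U, κ, 2 ^ κ)` holds; indeed `Gal(U, κ, θ)` holds
for every cardinal `θ > κ⁺`. -/
theorem result (κ : Cardinal.{0}) (hκ : IsSupercompact κ) :
    ∃ (P : Type) (_ : Preorder P), Nonempty P ∧ ∀ p : P,
      p ∈ StaysRegular P κ ∧ p ∈ PreservesFrom P κ ∧
      p ∈ PowIs P κ (Order.succ (2 ^ κ : Cardinal.{0})) ∧
      p ∈ fex fun U : (κ.ord.ToType → Set P) → Set P =>
        fand (IsMeasure κ U) (fand (fnot (Galvin U κ (Order.succ κ)))
          (fand (Galvin U κ (Order.succ (2 ^ κ : Cardinal.{0})))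
            (fall fun θ : Cardinal.{0} => fall fun _ : Order.succ κ < θ => Galvin U κ θ))) :=
  main κ hκ

end Pool.Agent.Results.MP_c88476_lc.GalvinSeparation
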